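import Pool.Agent.V1172.GVol

/-!
# MP_4af734_an, Q1

A counterexample with values in the projective plane, `n = 2`, `k = 1`.
-/

set_option autoImplicit false

open Set Filter Topology MeasureTheory Metric Pool.Agent.V1172.Radial Pool.Agent.V1172.GVol

open scoped ENNReal

namespace Pool.Agent.Results.MP_4af734_an.GraphVolume

/-- The polydisc `Δ^m`. -/
def polydisc (m : ℕ) : Set (Fin m → ℂ) := {z | ∀ i, ‖z i‖ < 1}

/-- The polydisc shell `A^m(r,1)`: the polydisc `Δ^m` minus the closed polydisc of radius `r`. -/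
def shell (m : ℕ) (r : ℝ) : Set (Fin m → ℂ) := {z | (∀ i, ‖z i‖ < 1) ∧ ¬ ∀ i, ‖z i‖ ≤ r}

/-- The Fubini–Study metric of `P^q` in the affine chart `v ↦ [1 : v₁ : … : v_q]`: the Hermitian
matrix `∂²/∂vᵢ∂v̄ⱼ log (1 + |v|²)`. -/
noncomputable def fsMatrix {q : ℕ} (v : Fin q → ℂ) : Matrix (Fin q) (Fin q) ℂ :=
  Matrix.of fun i j => ((if i = j then 1 else 0) * (1 + ∑ l, (Complex.normSq (v l) : ℂ)) -
    (starRingEnd ℂ) (v i) * v j) / (1 + ∑ l, (Complex.normSq (v l) : ℂ)) ^ 2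

/-- The complex Jacobian matrix. -/
noncomputable def jac {m q : ℕ} (f : (Fin m → ℂ) → (Fin q → ℂ)) (z : Fin m → ℂ) :
    Matrix (Fin q) (Fin m) ℂ :=
  Matrix.of fun i j => fderiv ℂ f z (Pi.single j 1) i

/-- The Hermitian matrix of `f^* ω`, where `ω` is the Fubini–Study form. -/
noncomputable def pullback {m q : ℕ} (f : (Fin m → ℂ) → (Fin q → ℂ)) (z : Fin m → ℂ) :
    Matrix (Fin m) (Fin m) ℂ :=
  (jac f z).transpose * fsMatrix (f z) * (jac f z).map (starRingEnd ℂ)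

/-- The volume `∫_D (dd^c ‖z‖² + f^* ω)^m` of the part over `D` of the graph of the holomorphic map
`f` with values in `ℂ^q ⊂ P^q`, where `dd^c = (i/2) ∂∂̄`: the form `(dd^c ‖z‖² + f^* ω)^m` is
`m! det (1 + pullback f z)` times the Lebesgue measure. -/
noncomputable def graphVol {m q : ℕ} (f : (Fin m → ℂ) → (Fin q → ℂ)) (D : Set (Fin m → ℂ)) :
    ℝ≥0∞ :=
  m.factorial * ∫⁻ z in D, ENNReal.ofReal (1 + pullback f z).det.re

/-- The restriction of `f` to the disc `{z} × Δ^k`. -/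
def slice {j k q : ℕ} (f : (Fin (j + k) → ℂ) → (Fin q → ℂ)) (z : Fin j → ℂ) :
    (Fin k → ℂ) → (Fin q → ℂ) := fun w => f (Fin.append z w)

/-- Holomorphic maps `f : Δ^(j+k) → ℂ^q ⊂ P^q` in the class `F_R` of the problem, with
`n = j + k`. -/
def InClass (j k q : ℕ) (r : ℝ) (R : ℝ≥0∞) (f : (Fin (j + k) → ℂ) → (Fin q → ℂ)) : Prop :=
  DifferentiableOn ℂ f (polydisc (j + k)) ∧ graphVol f (shell (j + k) r) ≤ R ∧
    ∀ z ∈ polydisc j, graphVol (slice f z) (shell k r) ≤ R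

/-- The maps of the counterexample. -/
noncomputable def fm (M : ℕ) (α β : ℝ) : (Fin 2 → ℂ) → (Fin 2 → ℂ) :=
  fun z => ![(α : ℂ) * z 0 ^ (M + 1), (β : ℂ) * z 1]

theorem fm_diff (M : ℕ) (α β : ℝ) : Differentiable ℂ (fm M α β) := by
  rw [differentiable_pi, Fin.forall_fin_two]
  constructor
  · simp only [fm, Matrix.cons_val_zero]
    fun_prop
  · simp only [fm, Matrix.cons_val_one, Matrix.cons_val_fin_one]
    fun_prop

theorem normSq_eq (z : ℂ) : Complex.normSq z = ‖z‖ ^ 2 := Complex.normSq_eq_norm_sq z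

theorem fm_jac (M : ℕ) (α β : ℝ) (z : Fin 2 → ℂ) :
    jac (fm M α β) z = !![(α : ℂ) * ((M + 1 : ℕ) * z 0 ^ M), 0; 0, (β : ℂ)] := by
  have hd : DifferentiableAt ℂ (fm M α β) z := fm_diff M α β z
  have hcomp : ∀ (i : Fin 2) (v : Fin 2 → ℂ), fderiv ℂ (fm M α β) z v i =
      fderiv ℂ (fun z => fm M α β z i) z v := by
    intro i v
    have h1 : HasFDerivAt (fun z => fm M α β z i)
        ((ContinuousLinearMap.proj (R := ℂ) (φ := fun _ : Fin 2 => ℂ) i).comp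
          (fderiv ℂ (fm M α β) z)) z :=
      (hasFDerivAt_pi'.1 hd.hasFDerivAt) i
    rw [h1.fderiv]
    rfl
  have h0 : HasFDerivAt (fun z : Fin 2 → ℂ => fm M α β z 0)
      ((α : ℂ) • (((M + 1 : ℕ) * z 0 ^ M : ℂ) •
        (ContinuousLinearMap.proj (R := ℂ) (φ := fun _ : Fin 2 => ℂ) 0))) z := by
    have h1 : HasFDerivAt (fun z : Fin 2 → ℂ => z 0)
      (ContinuousLinearMap.proj (R := ℂ) (φ := fun _ : Fin 2 => ℂ) 0) z :=
      (ContinuousLinearMap.proj (R := ℂ) (φ := fun _ : Fin 2 => ℂ) 0).hasFDerivAt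
    have h2 := h1.pow (M + 1)
    have h3 := h2.const_mul (α : ℂ)
    refine h3.congr_fderiv ?_
    ext v
    simp
  have h1 : HasFDerivAt (fun z : Fin 2 → ℂ => fm M α β z 1)
      ((β : ℂ) • (ContinuousLinearMap.proj (R := ℂ) (φ := fun _ : Fin 2 => ℂ) 1)) z := by
    have h1 : HasFDerivAt (fun z : Fin 2 → ℂ => z 1)
      (ContinuousLinearMap.proj (R := ℂ) (φ := fun _ : Fin 2 => ℂ) 1) z :=
      (ContinuousLinearMap.proj (R := ℂ) (φ := fun _ : Fin 2 => ℂ) 1).hasFDerivAt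
    exact h1.const_mul (β : ℂ)
  ext i j
  simp only [jac, Matrix.of_apply]
  rw [hcomp]
  fin_cases i <;> fin_cases j <;> simp [h0.fderiv, h1.fderiv]

theorem det_algebra (P P' x x' y y' β a X Y S : ℂ) (hP : P * P' = a) (hx : x' * x = X)
    (hy : y' * y = Y) (hS : S = 1 + X + Y) (hS0 : S ≠ 0) :
    (1 + P * ((1 * S - x' * x) / S ^ 2) * P') * (1 + β * ((1 * S - y' * y) / S ^ 2) * β) -
      (P * ((0 * S - x' * y) / S ^ 2) * β) * (β * ((0 * S - y' * x) / S ^ 2) * P') =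
    (1 + β ^ 2 * (1 + X) / S ^ 2) + a * (1 + Y) / S ^ 2 + a * β ^ 2 / S ^ 3 := by
  have h1 : (1 + P * ((1 * S - x' * x) / S ^ 2) * P') = 1 + a * (1 + Y) / S ^ 2 := by
    rw [hx, ← hP, hS]; ring
  have h2 : (1 + β * ((1 * S - y' * y) / S ^ 2) * β) = 1 + β ^ 2 * (1 + X) / S ^ 2 := by
    rw [hy, hS]; ring
  have h3 : (P * ((0 * S - x' * y) / S ^ 2) * β) * (β * ((0 * S - y' * x) / S ^ 2) * P') =
      a * β ^ 2 * (X * Y) / S ^ 4 := by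
    rw [← hP, ← hx, ← hy]; ring
  rw [h1, h2, h3]
  have h4 : a * (1 + Y) / S ^ 2 * (β ^ 2 * (1 + X) / S ^ 2) - a * β ^ 2 * (X * Y) / S ^ 4 =
      a * β ^ 2 / S ^ 3 := by
    field_simp
    rw [hS]; ring
  linear_combination h4

theorem fm_det (M : ℕ) (α β : ℝ) (z : Fin 2 → ℂ) :
    (1 + pullback (fm M α β) z).det.re =
      T13 M α β ‖z 0‖ ‖z 1‖ + T2 M α β ‖z 0‖ ‖z 1‖ + T4 M α β ‖z 0‖ ‖z 1‖ := by
  have hX : (starRingEnd ℂ) ((α : ℂ) * z 0 ^ (M + 1)) * ((α : ℂ) * z 0 ^ (M + 1)) =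
      ((X M α ‖z 0‖ : ℝ) : ℂ) := by
    rw [mul_comm, Complex.mul_conj, normSq_eq]
    congr 1
    rw [norm_mul, norm_pow, Complex.norm_real, mul_pow, Real.norm_eq_abs, sq_abs, X]
    ring
  have hY : (starRingEnd ℂ) ((β : ℂ) * z 1) * ((β : ℂ) * z 1) = ((Y β ‖z 1‖ : ℝ) : ℂ) := by
    rw [mul_comm, Complex.mul_conj, normSq_eq]
    congr 1
    rw [norm_mul, Complex.norm_real, mul_pow, Real.norm_eq_abs, sq_abs, Y]
  have hP : ((α : ℂ) * ((M + 1 : ℕ) * z 0 ^ M)) *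
      (starRingEnd ℂ) ((α : ℂ) * ((M + 1 : ℕ) * z 0 ^ M)) = ((a M α ‖z 0‖ : ℝ) : ℂ) := by
    rw [Complex.mul_conj, normSq_eq]
    congr 1
    rw [norm_mul, norm_mul, norm_pow, Complex.norm_real, Complex.norm_natCast, mul_pow, mul_pow,
      Real.norm_eq_abs, sq_abs, a]
    ring
  have hS0 : (1 + X M α ‖z 0‖ + Y β ‖z 1‖ : ℂ) ≠ 0 := by
    have := (S_pos M α β ‖z 0‖ ‖z 1‖).ne'
    exact_mod_cast this
  have hsum : (1 + ∑ l, (Complex.normSq (fm M α β z l) : ℂ)) =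
      1 + X M α ‖z 0‖ + Y β ‖z 1‖ := by
    rw [Fin.sum_univ_two, Complex.normSq_eq_conj_mul_self, Complex.normSq_eq_conj_mul_self]
    simp only [fm, Matrix.cons_val_zero, Matrix.cons_val_one, Matrix.cons_val_fin_one]
    rw [hX, hY]
    ring
  have key := det_algebra _ _ _ _ _ _ (β : ℂ) _ _ _ _ hP hX hY rfl hS0
  have hdet : (1 + pullback (fm M α β) z).det =
      ((T13 M α β ‖z 0‖ ‖z 1‖ + T2 M α β ‖z 0‖ ‖z 1‖ + T4 M α β ‖z 0‖ ‖z 1‖ : ℝ) : ℂ) := by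
    have h1 : (1 + pullback (fm M α β) z) =
        !![1 + ((α : ℂ) * ((M + 1 : ℕ) * z 0 ^ M)) * fsMatrix (fm M α β z) 0 0 *
            (starRingEnd ℂ) ((α : ℂ) * ((M + 1 : ℕ) * z 0 ^ M)),
          ((α : ℂ) * ((M + 1 : ℕ) * z 0 ^ M)) * fsMatrix (fm M α β z) 0 1 * (β : ℂ);
          (β : ℂ) * fsMatrix (fm M α β z) 1 0 *
            (starRingEnd ℂ) ((α : ℂ) * ((M + 1 : ℕ) * z 0 ^ M)),
          1 + (β : ℂ) * fsMatrix (fm M α β z) 1 1 * (β : ℂ)] := by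
      ext i j
      simp only [pullback, fm_jac, Matrix.add_apply, Matrix.mul_apply, Fin.sum_univ_two,
        Matrix.transpose_apply, Matrix.map_apply]
      fin_cases i <;> fin_cases j <;> simp
    rw [h1, Matrix.det_fin_two_of]
    simp only [fsMatrix, Matrix.of_apply, hsum]
    simp only [fm, Matrix.cons_val_zero, Matrix.cons_val_one, Matrix.cons_val_fin_one]
    simp only [if_true, if_neg (show ¬ (0 : Fin 2) = 1 by decide),
      if_neg (show ¬ (1 : Fin 2) = 0 by decide)]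
    rw [key]
    simp only [T13, T2, T4]
    push_cast
    ring
  rw [hdet, Complex.ofReal_re]

theorem slice_eq (M : ℕ) (α β : ℝ) (z : Fin 1 → ℂ) :
    slice (j := 1) (k := 1) (fm M α β) z =
      fun w => ![(α : ℂ) * z 0 ^ (M + 1), (β : ℂ) * w 0] := by
  ext w i
  have h0 : (Fin.append z w : Fin (1 + 1) → ℂ) 0 = z 0 := Fin.append_left z w 0
  have h1 : (Fin.append z w : Fin (1 + 1) → ℂ) 1 = w 0 := Fin.append_right z w 0
  show ![(α : ℂ) * (Fin.append z w : Fin (1 + 1) → ℂ) 0 ^ (M + 1),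
    (β : ℂ) * (Fin.append z w : Fin (1 + 1) → ℂ) 1] i = _
  rw [h0, h1]

theorem slice_jac (M : ℕ) (α β : ℝ) (z w : Fin 1 → ℂ) :
    jac (slice (j := 1) (k := 1) (fm M α β) z) w = !![0; (β : ℂ)] := by
  rw [slice_eq]
  have hd : HasFDerivAt (fun w : Fin 1 → ℂ => ![(α : ℂ) * z 0 ^ (M + 1), (β : ℂ) * w 0])
      (ContinuousLinearMap.pi ![(0 : (Fin 1 → ℂ) →L[ℂ] ℂ), (β : ℂ) •
        (ContinuousLinearMap.proj (R := ℂ) (φ := fun _ : Fin 1 => ℂ) 0)]) w := by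
    rw [hasFDerivAt_pi, Fin.forall_fin_two]
    constructor
    · simp only [Matrix.cons_val_zero]
      exact hasFDerivAt_const _ _
    · simp only [Matrix.cons_val_one, Matrix.cons_val_fin_one]
      have h1 : HasFDerivAt (fun w : Fin 1 → ℂ => w 0)
        (ContinuousLinearMap.proj (R := ℂ) (φ := fun _ : Fin 1 => ℂ) 0) w :=
        (ContinuousLinearMap.proj (R := ℂ) (φ := fun _ : Fin 1 => ℂ) 0).hasFDerivAt
      exact h1.const_mul (β : ℂ)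
  ext i j
  simp only [jac, Matrix.of_apply]
  rw [hd.fderiv]
  fin_cases i <;> fin_cases j <;> simp

theorem slice_det (M : ℕ) (α β : ℝ) (z w : Fin 1 → ℂ) :
    (1 + pullback (slice (j := 1) (k := 1) (fm M α β) z) w).det.re =
      T13 M α β ‖z 0‖ ‖w 0‖ := by
  have hX : (starRingEnd ℂ) ((α : ℂ) * z 0 ^ (M + 1)) * ((α : ℂ) * z 0 ^ (M + 1)) =
      ((X M α ‖z 0‖ : ℝ) : ℂ) := by
    rw [mul_comm, Complex.mul_conj, normSq_eq]
    congr 1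
    rw [norm_mul, norm_pow, Complex.norm_real, mul_pow, Real.norm_eq_abs, sq_abs, X]
    ring
  have hY : (starRingEnd ℂ) ((β : ℂ) * w 0) * ((β : ℂ) * w 0) = ((Y β ‖w 0‖ : ℝ) : ℂ) := by
    rw [mul_comm, Complex.mul_conj, normSq_eq]
    congr 1
    rw [norm_mul, Complex.norm_real, mul_pow, Real.norm_eq_abs, sq_abs, Y]
  have hsum : (1 + ∑ l, (Complex.normSq
      (slice (j := 1) (k := 1) (fm M α β) z w l) : ℂ)) =
      1 + X M α ‖z 0‖ + Y β ‖w 0‖ := by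
    rw [Fin.sum_univ_two, Complex.normSq_eq_conj_mul_self, Complex.normSq_eq_conj_mul_self,
      slice_eq]
    simp only [Matrix.cons_val_zero, Matrix.cons_val_one, Matrix.cons_val_fin_one]
    rw [hX, hY]
    ring
  have h1 : (1 + pullback (slice (j := 1) (k := 1) (fm M α β) z) w).det =
      1 + (β : ℂ) * fsMatrix (slice (j := 1) (k := 1) (fm M α β) z w) 1 1 * (β : ℂ) := by
    rw [Matrix.det_fin_one]
    simp only [pullback, slice_jac, Matrix.add_apply, Matrix.mul_apply, Fin.sum_univ_two,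
        Matrix.transpose_apply, Matrix.map_apply]
    simp
  have h2 : (1 + pullback (slice (j := 1) (k := 1) (fm M α β) z) w).det =
      ((T13 M α β ‖z 0‖ ‖w 0‖ : ℝ) : ℂ) := by
    rw [h1]
    simp only [fsMatrix, Matrix.of_apply, hsum]
    simp only [slice_eq, Matrix.cons_val_one, Matrix.cons_val_fin_one, if_true]
    rw [hY, T13]
    push_cast
    ring
  rw [h2, Complex.ofReal_re]

theorem lintegral_one (U : Set ℂ) (f : ℂ → ℝ≥0∞) :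
    ∫⁻ w in {w : Fin 1 → ℂ | w 0 ∈ U}, f (w 0) = ∫⁻ w in U, f w := by
  have hmp := volume_preserving_funUnique (Fin 1) ℂ
  have h2 := hmp.setLIntegral_comp_preimage_emb (MeasurableEquiv.measurableEmbedding _) f U
  rw [← h2]
  rfl

theorem slice_vol (M : ℕ) (α β : ℝ) (z : Fin 1 → ℂ) :
    graphVol (slice (j := 1) (k := 1) (fm M α β) z) (polydisc 1) ≤
      ENNReal.ofReal (2 * Real.pi) := by
  rw [graphVol]
  simp only [slice_det, Nat.factorial_one, Nat.cast_one, one_mul]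
  have h1 : polydisc 1 = {w : Fin 1 → ℂ | w 0 ∈ Ann 0} := by
    ext w
    simp [polydisc, Ann]
  rw [h1, lintegral_one (Ann 0) (fun w => ENNReal.ofReal (T13 M α β ‖z 0‖ ‖w‖))]
  exact slice_integral M α β _

theorem meas13 (M : ℕ) (α β : ℝ) : Measurable (Function.uncurry fun ζ w : ℂ =>
    ENNReal.ofReal (T13 M α β ‖ζ‖ ‖w‖)) := (cont_T13 M α β).measurable.ennreal_ofReal

theorem meas2 (M : ℕ) (α β : ℝ) : Measurable (Function.uncurry fun ζ w : ℂ =>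
    ENNReal.ofReal (T2 M α β ‖ζ‖ ‖w‖)) := (cont_T2 M α β).measurable.ennreal_ofReal

theorem meas4 (M : ℕ) (α β : ℝ) : Measurable (Function.uncurry fun ζ w : ℂ =>
    ENNReal.ofReal (T4 M α β ‖ζ‖ ‖w‖)) := (cont_T4 M α β).measurable.ennreal_ofReal

theorem lintegral_const_Ann (c : ℝ≥0∞) : ∫⁻ _ in Ann 0, c = c * ENNReal.ofReal Real.pi := by
  have := vol_Ann
  rw [setLIntegral_const] at this ⊢
  rw [one_mul] at this
  rw [this]

theorem Ann_subset {r : ℝ} (hr : 0 < r) : Ann r ⊆ Ann 0 := fun _ hw => ⟨hr.le.trans hw.1, hw.2⟩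

theorem int13 (M : ℕ) (α β : ℝ) :
    ∫⁻ z in Box (Ann 0) (Ann 0), ENNReal.ofReal (T13 M α β ‖z 0‖ ‖z 1‖) ≤
      ENNReal.ofReal (2 * Real.pi) * ENNReal.ofReal Real.pi := by
  rw [lintegral_Box (measurableSet_Ann 0) (measurableSet_Ann 0)
    (fun ζ w => ENNReal.ofReal (T13 M α β ‖ζ‖ ‖w‖)) (meas13 M α β)]
  refine (lintegral_mono fun ζ => slice_integral M α β ‖ζ‖).trans ?_
  rw [lintegral_const_Ann]

theorem int2 (M : ℕ) (α β : ℝ) (hβ0 : 0 < β) (hβ : ((M + 1 : ℕ) : ℝ) ^ 2 * α ^ 2 ≤ β) :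
    ∫⁻ z in Box (Ann 0) (Ann 0), ENNReal.ofReal (T2 M α β ‖z 0‖ ‖z 1‖) ≤
      ENNReal.ofReal (2 * Real.pi) * ENNReal.ofReal Real.pi := by
  rw [lintegral_Box (measurableSet_Ann 0) (measurableSet_Ann 0)
    (fun ζ w => ENNReal.ofReal (T2 M α β ‖ζ‖ ‖w‖)) (meas2 M α β)]
  have hc0 : 0 ≤ ((M + 1 : ℕ) : ℝ) ^ 2 * α ^ 2 := by positivity
  set c := ((M + 1 : ℕ) : ℝ) ^ 2 * α ^ 2 with hc
  have h1 : ∀ ζ ∈ Ann 0, ∫⁻ w in Ann 0, ENNReal.ofReal (T2 M α β ‖ζ‖ ‖w‖) ≤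
      ENNReal.ofReal (2 * Real.pi) := by
    intro ζ hζ
    have h2 : ∀ w : ℂ, T2 M α β ‖ζ‖ ‖w‖ ≤ c / (1 + β ^ 2 * ‖w‖ ^ 2) := by
      intro w
      have hY := Y_nonneg β ‖w‖
      have hX := X_nonneg M α ‖ζ‖
      have ha := a_nonneg M α ‖ζ‖
      have hac := a_le M α hζ.1 hζ.2.le
      have hYe : Y β ‖w‖ = β ^ 2 * ‖w‖ ^ 2 := rfl
      rw [← hYe, T2, div_le_div_iff₀ (by positivity) (by positivity)]
      have h3 : (1 + Y β ‖w‖) * (1 + Y β ‖w‖) ≤ (1 + X M α ‖ζ‖ + Y β ‖w‖) ^ 2 := by nlinarith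
      calc a M α ‖ζ‖ * (1 + Y β ‖w‖) * (1 + Y β ‖w‖) =
          a M α ‖ζ‖ * ((1 + Y β ‖w‖) * (1 + Y β ‖w‖)) := by ring
        _ ≤ c * (1 + X M α ‖ζ‖ + Y β ‖w‖) ^ 2 := mul_le_mul hac h3 (by positivity) hc0
    refine (lintegral_mono fun w => ENNReal.ofReal_le_ofReal (h2 w)).trans ?_
    refine (T2_integral β c hβ0 hc0).trans (ENNReal.ofReal_le_ofReal ?_)
    rw [div_le_iff₀ hβ0]
    exact mul_le_mul_of_nonneg_left hβ (by positivity)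
  refine (setLIntegral_mono' (measurableSet_Ann 0) h1).trans ?_
  rw [lintegral_const_Ann]

theorem int4ζ (M : ℕ) (α β r : ℝ) (hr0 : 0 < r) (hr1 : r < 1)
    (hα : (M + 1 : ℝ) ≤ α ^ 2 * r ^ (2 * (M + 1))) :
    ∫⁻ z in Box (Ann r) (Ann 0), ENNReal.ofReal (T4 M α β ‖z 0‖ ‖z 1‖) ≤
      ENNReal.ofReal (Real.pi * (Real.pi / 2)) := by
  rw [lintegral_Box (measurableSet_Ann r) (measurableSet_Ann 0)
    (fun ζ w => ENNReal.ofReal (T4 M α β ‖ζ‖ ‖w‖)) (meas4 M α β)]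
  have h1 : ∀ ζ : ℂ, ∫⁻ w in Ann 0, ENNReal.ofReal (T4 M α β ‖ζ‖ ‖w‖) ≤
      ENNReal.ofReal ((Real.pi / 2) * a M α ‖ζ‖ / (1 + X M α ‖ζ‖) ^ 2) := by
    intro ζ
    rw [T4_integral]
    apply ENNReal.ofReal_le_ofReal
    have hX := X_nonneg M α ‖ζ‖
    have ha := a_nonneg M α ‖ζ‖
    have h2 : 1 / (1 + X M α ‖ζ‖) ^ 2 - 1 / (1 + X M α ‖ζ‖ + β ^ 2) ^ 2 ≤
        1 / (1 + X M α ‖ζ‖) ^ 2 := by
      have : 0 ≤ 1 / (1 + X M α ‖ζ‖ + β ^ 2) ^ 2 := by positivity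
      linarith
    calc Real.pi / 2 * a M α ‖ζ‖ * (1 / (1 + X M α ‖ζ‖) ^ 2 -
          1 / (1 + X M α ‖ζ‖ + β ^ 2) ^ 2) ≤
        Real.pi / 2 * a M α ‖ζ‖ * (1 / (1 + X M α ‖ζ‖) ^ 2) :=
          mul_le_mul_of_nonneg_left h2 (by have := Real.pi_pos; positivity)
      _ = _ := by ring
  refine (lintegral_mono h1).trans ?_
  rw [a_integral M α hr0.le hr1 (Real.pi / 2) (by have := Real.pi_pos; positivity)]
  apply ENNReal.ofReal_le_ofReal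
  have h3 : (M + 1 : ℝ) * (1 / (1 + α ^ 2 * r ^ (2 * (M + 1))) - 1 / (1 + α ^ 2)) ≤ 1 := by
    have h4 : 0 ≤ 1 / (1 + α ^ 2) := by positivity
    have hM : (0 : ℝ) < M + 1 := by positivity
    have h5 : (M + 1 : ℝ) * (1 / (1 + α ^ 2 * r ^ (2 * (M + 1)))) ≤ 1 := by
      rw [mul_one_div, div_le_one (by linarith)]
      linarith
    nlinarith
  have hpi := Real.pi_pos
  calc Real.pi * (Real.pi / 2) * (M + 1) *
        (1 / (1 + α ^ 2 * r ^ (2 * (M + 1))) - 1 / (1 + α ^ 2)) =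
      Real.pi * (Real.pi / 2) * ((M + 1 : ℝ) *
        (1 / (1 + α ^ 2 * r ^ (2 * (M + 1))) - 1 / (1 + α ^ 2))) := by ring
    _ ≤ Real.pi * (Real.pi / 2) * 1 := mul_le_mul_of_nonneg_left h3 (by positivity)
    _ = _ := by ring

theorem int4w (M : ℕ) (α β r : ℝ) (hr0 : 0 < r) (hβ0 : 0 < β)
    (hβ : ((M + 1 : ℕ) : ℝ) ^ 2 * α ^ 2 ≤ β ^ 4 * r ^ 6) :
    ∫⁻ z in Box (Ann 0) (Ann r), ENNReal.ofReal (T4 M α β ‖z 0‖ ‖z 1‖) ≤
      ENNReal.ofReal Real.pi * ENNReal.ofReal Real.pi := by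
  rw [lintegral_Box (measurableSet_Ann 0) (measurableSet_Ann r)
    (fun ζ w => ENNReal.ofReal (T4 M α β ‖ζ‖ ‖w‖)) (meas4 M α β)]
  have h1 : ∀ ζ ∈ Ann 0, ∫⁻ w in Ann r, ENNReal.ofReal (T4 M α β ‖ζ‖ ‖w‖) ≤
      ENNReal.ofReal Real.pi := by
    intro ζ hζ
    have h2 : ∀ w ∈ Ann r, ENNReal.ofReal (T4 M α β ‖ζ‖ ‖w‖) ≤ 1 := by
      intro w hw
      rw [← ENNReal.ofReal_one]
      apply ENNReal.ofReal_le_ofReal
      have hX := X_nonneg M α ‖ζ‖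
      have ha := a_nonneg M α ‖ζ‖
      have hac := a_le M α hζ.1 hζ.2.le
      have hY : β ^ 2 * r ^ 2 ≤ Y β ‖w‖ := by
        unfold Y
        exact mul_le_mul_of_nonneg_left (pow_le_pow_left₀ hr0.le hw.1 2) (by positivity)
      have hS : β ^ 2 * r ^ 2 ≤ 1 + X M α ‖ζ‖ + Y β ‖w‖ := by linarith
      have hS3 := pow_le_pow_left₀ (by positivity) hS 3
      rw [T4, div_le_one (lt_of_lt_of_le (by positivity) hS3)]
      refine le_trans ?_ hS3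
      calc a M α ‖ζ‖ * β ^ 2 ≤ (((M + 1 : ℕ) : ℝ) ^ 2 * α ^ 2) * β ^ 2 :=
            mul_le_mul_of_nonneg_right hac (by positivity)
        _ ≤ (β ^ 4 * r ^ 6) * β ^ 2 := mul_le_mul_of_nonneg_right hβ (by positivity)
        _ = _ := by ring
    refine (setLIntegral_mono' (measurableSet_Ann r) h2).trans ?_
    refine (lintegral_mono_set (Ann_subset hr0)).trans ?_
    rw [lintegral_const_Ann, one_mul]
  refine (setLIntegral_mono' (measurableSet_Ann 0) h1).trans ?_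
  rw [lintegral_const_Ann]

theorem int4_lower (M : ℕ) (α β : ℝ) (hα : 1 ≤ α) (hβ : 1 + α ^ 2 ≤ β ^ 2) :
    ENNReal.ofReal (3 * Real.pi ^ 2 / 16 * (M + 1)) ≤
      ∫⁻ z in Box (Ann 0) (Ann 0), ENNReal.ofReal (T4 M α β ‖z 0‖ ‖z 1‖) := by
  rw [lintegral_Box (measurableSet_Ann 0) (measurableSet_Ann 0)
    (fun ζ w => ENNReal.ofReal (T4 M α β ‖ζ‖ ‖w‖)) (meas4 M α β)]
  have hpi := Real.pi_pos
  have h1 : ∀ ζ ∈ Ann 0, ENNReal.ofReal ((3 * Real.pi / 8) * a M α ‖ζ‖ / (1 + X M α ‖ζ‖) ^ 2) ≤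
      ∫⁻ w in Ann 0, ENNReal.ofReal (T4 M α β ‖ζ‖ ‖w‖) := by
    intro ζ hζ
    rw [T4_integral]
    apply ENNReal.ofReal_le_ofReal
    have hX := X_nonneg M α ‖ζ‖
    have hX1 := X_le M α hζ.1 hζ.2.le
    have ha := a_nonneg M α ‖ζ‖
    have h2 : 1 / (1 + X M α ‖ζ‖ + β ^ 2) ^ 2 ≤ 1 / 4 * (1 / (1 + X M α ‖ζ‖) ^ 2) := by
      rw [div_mul_div_comm, one_mul]
      apply one_div_le_one_div_of_le (by positivity)
      have : 2 * (1 + X M α ‖ζ‖) ≤ 1 + X M α ‖ζ‖ + β ^ 2 := by linarith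
      calc 4 * (1 + X M α ‖ζ‖) ^ 2 = (2 * (1 + X M α ‖ζ‖)) ^ 2 := by ring
        _ ≤ _ := pow_le_pow_left₀ (by positivity) this 2
    have h3 : 3 / 4 * (1 / (1 + X M α ‖ζ‖) ^ 2) ≤
        1 / (1 + X M α ‖ζ‖) ^ 2 - 1 / (1 + X M α ‖ζ‖ + β ^ 2) ^ 2 := by linarith
    calc (3 * Real.pi / 8) * a M α ‖ζ‖ / (1 + X M α ‖ζ‖) ^ 2 =
        Real.pi / 2 * a M α ‖ζ‖ * (3 / 4 * (1 / (1 + X M α ‖ζ‖) ^ 2)) := by ring
      _ ≤ _ := mul_le_mul_of_nonneg_left h3 (by positivity)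
  refine le_trans ?_ (setLIntegral_mono' (measurableSet_Ann 0) h1)
  rw [a_integral M α le_rfl one_pos (3 * Real.pi / 8) (by positivity)]
  apply ENNReal.ofReal_le_ofReal
  have h4 : (0 : ℝ) ^ (2 * (M + 1)) = 0 := zero_pow (by omega)
  rw [h4, mul_zero, add_zero, div_one]
  have h5 : 1 / (1 + α ^ 2) ≤ 1 / 2 := by
    apply one_div_le_one_div_of_le (by norm_num)
    nlinarith
  have hM : (0 : ℝ) < M + 1 := by positivity
  calc 3 * Real.pi ^ 2 / 16 * (M + 1) = Real.pi * (3 * Real.pi / 8) * (M + 1) * (1 / 2) := by ring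
    _ ≤ Real.pi * (3 * Real.pi / 8) * (M + 1) * (1 - 1 / (1 + α ^ 2)) := by
      refine mul_le_mul_of_nonneg_left ?_ (by positivity)
      linarith

theorem polydisc_two : polydisc (1 + 1) = Box (Ann 0) (Ann 0) := by
  ext z
  have h : (∀ i : Fin (1 + 1), ‖z i‖ < 1) ↔ ‖z 0‖ < 1 ∧ ‖z 1‖ < 1 := Fin.forall_fin_two
  constructor
  · intro hz
    have := h.1 hz
    exact ⟨⟨norm_nonneg _, this.1⟩, ⟨norm_nonneg _, this.2⟩⟩
  · intro hz
    exact h.2 ⟨hz.1.2, hz.2.2⟩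

theorem shell_two (r : ℝ) : shell (1 + 1) r ⊆
    Box (Ann 0) (Ann 0) ∩ (Box (Ann r) (Ann 0) ∪ Box (Ann 0) (Ann r)) := by
  intro z hz
  have h : (∀ i : Fin (1 + 1), ‖z i‖ < 1) ↔ ‖z 0‖ < 1 ∧ ‖z 1‖ < 1 := Fin.forall_fin_two
  have h' : (∀ i : Fin (1 + 1), ‖z i‖ ≤ r) ↔ ‖z 0‖ ≤ r ∧ ‖z 1‖ ≤ r := Fin.forall_fin_two
  have h1 := h.1 hz.1
  have h2 := hz.2
  rw [h', not_and_or, not_le, not_le] at h2
  refine ⟨⟨⟨norm_nonneg _, h1.1⟩, ⟨norm_nonneg _, h1.2⟩⟩, ?_⟩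
  rcases h2 with h2 | h2
  · exact Or.inl ⟨⟨h2.le, h1.1⟩, ⟨norm_nonneg _, h1.2⟩⟩
  · exact Or.inr ⟨⟨norm_nonneg _, h1.1⟩, ⟨h2.le, h1.2⟩⟩

theorem meas4' (M : ℕ) (α β : ℝ) :
    Measurable fun z : Fin 2 → ℂ => ENNReal.ofReal (T4 M α β ‖z 0‖ ‖z 1‖) := by
  have hc : Continuous fun z : Fin 2 → ℂ => T4 M α β ‖z 0‖ ‖z 1‖ :=
    (cont_T4 M α β).comp (f := fun z : Fin 2 → ℂ => (z 0, z 1)) (by fun_prop)
  exact hc.measurable.ennreal_ofReal

theorem meas2' (M : ℕ) (α β : ℝ) :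
    Measurable fun z : Fin 2 → ℂ => ENNReal.ofReal (T2 M α β ‖z 0‖ ‖z 1‖) := by
  have hc : Continuous fun z : Fin 2 → ℂ => T2 M α β ‖z 0‖ ‖z 1‖ :=
    (cont_T2 M α β).comp (f := fun z : Fin 2 → ℂ => (z 0, z 1)) (by fun_prop)
  exact hc.measurable.ennreal_ofReal

theorem shell_bound (M : ℕ) (α β r : ℝ) (hr0 : 0 < r) (hr1 : r < 1) (hβ0 : 0 < β)
    (hβc : ((M + 1 : ℕ) : ℝ) ^ 2 * α ^ 2 ≤ β) (hαr : (M + 1 : ℝ) ≤ α ^ 2 * r ^ (2 * (M + 1)))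
    (hβ4 : ((M + 1 : ℕ) : ℝ) ^ 2 * α ^ 2 ≤ β ^ 4 * r ^ 6) (D : Set (Fin 2 → ℂ))
    (hD : D ⊆ Box (Ann 0) (Ann 0) ∩ (Box (Ann r) (Ann 0) ∪ Box (Ann 0) (Ann r))) :
    ∫⁻ z in D, ENNReal.ofReal
        (T13 M α β ‖z 0‖ ‖z 1‖ + T2 M α β ‖z 0‖ ‖z 1‖ + T4 M α β ‖z 0‖ ‖z 1‖) ≤
      ENNReal.ofReal (2 * Real.pi) * ENNReal.ofReal Real.pi +
    ENNReal.ofReal (2 * Real.pi) * ENNReal.ofReal Real.pi +
    (ENNReal.ofReal (Real.pi * (Real.pi / 2)) + ENNReal.ofReal Real.pi * ENNReal.ofReal Real.pi) := by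
  have hsum : ∀ z : Fin 2 → ℂ, ENNReal.ofReal
      (T13 M α β ‖z 0‖ ‖z 1‖ + T2 M α β ‖z 0‖ ‖z 1‖ + T4 M α β ‖z 0‖ ‖z 1‖) ≤
      (ENNReal.ofReal (T13 M α β ‖z 0‖ ‖z 1‖) + ENNReal.ofReal (T2 M α β ‖z 0‖ ‖z 1‖)) +
        ENNReal.ofReal (T4 M α β ‖z 0‖ ‖z 1‖) := by
    intro z
    refine ENNReal.ofReal_add_le.trans ?_
    exact add_le_add_left ENNReal.ofReal_add_le _
  refine (lintegral_mono hsum).trans ?_
  have hm4 := meas4' M α β
  have hm2 := meas2' M α β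
  rw [lintegral_add_right _ hm4, lintegral_add_right _ hm2]
  have hs1 : D ⊆ Box (Ann 0) (Ann 0) := fun z hz => (hD hz).1
  have hs2 : D ⊆ Box (Ann r) (Ann 0) ∪ Box (Ann 0) (Ann r) :=
    fun z hz => (hD hz).2
  refine add_le_add (add_le_add ?_ ?_) ?_
  · exact (lintegral_mono_set hs1).trans (int13 M α β)
  · exact (lintegral_mono_set hs1).trans (int2 M α β hβ0 hβc)
  · refine (lintegral_mono_set hs2).trans ((lintegral_union_le _ _ _).trans ?_)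
    exact add_le_add (int4ζ M α β r hr0 hr1 hαr) (int4w M α β r hr0 hβ0 hβ4)

theorem lower_bound (M : ℕ) (α β : ℝ) (hα : 1 ≤ α) (hβ : 1 + α ^ 2 ≤ β ^ 2) :
    ENNReal.ofReal (3 * Real.pi ^ 2 / 16 * (M + 1)) ≤
      ∫⁻ z in Box (Ann 0) (Ann 0), ENNReal.ofReal
        (T13 M α β ‖z 0‖ ‖z 1‖ + T2 M α β ‖z 0‖ ‖z 1‖ + T4 M α β ‖z 0‖ ‖z 1‖) := by
  refine (int4_lower M α β hα hβ).trans (lintegral_mono fun z => ?_)
  apply ENNReal.ofReal_le_ofReal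
  have h2 : 0 ≤ T13 M α β ‖z 0‖ ‖z 1‖ := by
    unfold T13
    have := X_nonneg M α ‖z 0‖
    positivity
  have h3 : 0 ≤ T2 M α β ‖z 0‖ ‖z 1‖ := by
    unfold T2
    have := Y_nonneg β ‖z 1‖
    have := a_nonneg M α ‖z 0‖
    positivity
  linarith

/-- **Q1 has a negative answer** for `X = P²` with the Fubini–Study metric, `n = 2`, `k = 1` and
every `0 < r < 1`: there are finite constants `R` and `l` such that the class `F_R` contains maps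
`f : Δ² → ℂ² ⊂ P²` all of whose restrictions to the discs `{z} × Δ` have graphs of area at most
`l`, and whose graphs have arbitrarily large volume. -/
theorem result (r : ℝ) (hr0 : 0 < r) (hr1 : r < 1) :
    ∃ R l : ℝ≥0∞, R ≠ ⊤ ∧ l ≠ ⊤ ∧ ∀ A : ℝ≥0∞, A ≠ ⊤ →
      ∃ f : (Fin (1 + 1) → ℂ) → (Fin 2 → ℂ), InClass 1 1 2 r R f ∧
        (∀ z ∈ polydisc 1, graphVol (slice f z) (polydisc 1) ≤ l) ∧
        A < graphVol f (polydisc (1 + 1)) := by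
  have hpi := Real.pi_pos
  let R0 : ℝ≥0∞ := ENNReal.ofReal (2 * Real.pi) * ENNReal.ofReal Real.pi +
    ENNReal.ofReal (2 * Real.pi) * ENNReal.ofReal Real.pi +
    (ENNReal.ofReal (Real.pi * (Real.pi / 2)) + ENNReal.ofReal Real.pi * ENNReal.ofReal Real.pi)
  have hR0 : R0 ≠ ⊤ := by
    refine ENNReal.add_ne_top.2 ⟨ENNReal.add_ne_top.2 ⟨?_, ?_⟩, ENNReal.add_ne_top.2 ⟨?_, ?_⟩⟩
    · exact ENNReal.mul_ne_top ENNReal.ofReal_ne_top ENNReal.ofReal_ne_top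
    · exact ENNReal.mul_ne_top ENNReal.ofReal_ne_top ENNReal.ofReal_ne_top
    · exact ENNReal.ofReal_ne_top
    · exact ENNReal.mul_ne_top ENNReal.ofReal_ne_top ENNReal.ofReal_ne_top
  refine ⟨2 * R0 + ENNReal.ofReal (2 * Real.pi), ENNReal.ofReal (2 * Real.pi),
    ENNReal.add_ne_top.2 ⟨ENNReal.mul_ne_top (by norm_num) hR0, ENNReal.ofReal_ne_top⟩,
    ENNReal.ofReal_ne_top, ?_⟩
  intro A hA
  obtain ⟨M, hM⟩ := exists_nat_gt A.toReal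
  obtain ⟨α, hαdef⟩ : ∃ α : ℝ, α = (2 / r) ^ (M + 1) := ⟨_, rfl⟩
  have hα1 : 1 ≤ α := by
    rw [hαdef]
    apply one_le_pow₀
    rw [le_div_iff₀ hr0]; linarith
  have hαr : (M + 1 : ℝ) ≤ α ^ 2 * r ^ (2 * (M + 1)) := by
    have h1 : α ^ 2 * r ^ (2 * (M + 1)) = 4 ^ (M + 1) := by
      rw [hαdef, ← pow_mul, mul_comm (M + 1) 2, ← mul_pow, div_mul_cancel₀ _ hr0.ne', pow_mul]
      norm_num
    rw [h1]
    have h2 : (M + 1 : ℕ) < 4 ^ (M + 1) := Nat.lt_pow_self (by norm_num)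
    exact_mod_cast h2.le
  obtain ⟨c, hcdef⟩ : ∃ c : ℝ, c = ((M + 1 : ℕ) : ℝ) ^ 2 * α ^ 2 := ⟨_, rfl⟩
  have hM1 : (1 : ℝ) ≤ ((M + 1 : ℕ) : ℝ) := by exact_mod_cast Nat.succ_le_succ (Nat.zero_le _)
  have hcα : α ^ 2 ≤ c := by
    rw [hcdef]
    have : (1 : ℝ) ≤ ((M + 1 : ℕ) : ℝ) ^ 2 := one_le_pow₀ hM1
    nlinarith [sq_nonneg α]
  have hc1 : 1 ≤ c := by nlinarith
  obtain ⟨β, hβdef⟩ : ∃ β : ℝ, β = 2 * c + 1 + 1 / r ^ 3 := ⟨_, rfl⟩
  have hr3 : 0 < 1 / r ^ 3 := by positivity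
  have hβ0 : 0 < β := by rw [hβdef]; positivity
  have hβc : c ≤ β := by rw [hβdef]; linarith
  have hβr : 1 / r ^ 3 ≤ β := by rw [hβdef]; linarith
  have hβ2 : 1 + α ^ 2 ≤ β ^ 2 := by
    have h1 : 2 * c + 1 ≤ β := by rw [hβdef]; linarith
    nlinarith
  have hβ4 : c ≤ β ^ 4 * r ^ 6 := by
    have h1 : 1 ≤ β * r ^ 3 := by
      have := mul_le_mul_of_nonneg_right hβr (show (0 : ℝ) ≤ r ^ 3 by positivity)
      rwa [one_div, inv_mul_cancel₀ (by positivity)] at this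
    have h2 : 1 ≤ (β * r ^ 3) ^ 2 := one_le_pow₀ h1
    have h3 : c ≤ β ^ 2 := by nlinarith
    calc c = c * 1 := by ring
      _ ≤ β ^ 2 * (β * r ^ 3) ^ 2 := mul_le_mul h3 h2 zero_le_one (by positivity)
      _ = _ := by ring
  rw [hcdef] at hβc hβ4
  let f : (Fin (1 + 1) → ℂ) → (Fin 2 → ℂ) := fm M α β
  have hdens : ∀ z : Fin (1 + 1) → ℂ, ENNReal.ofReal (1 + pullback f z).det.re =
      ENNReal.ofReal (T13 M α β ‖z 0‖ ‖z 1‖ + T2 M α β ‖z 0‖ ‖z 1‖ + T4 M α β ‖z 0‖ ‖z 1‖) := by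
    intro z
    rw [← fm_det]
  have hslice : ∀ z : Fin 1 → ℂ, graphVol (slice f z) (polydisc 1) ≤
      ENNReal.ofReal (2 * Real.pi) := fun z => slice_vol M α β z
  refine ⟨f, ⟨(fm_diff M α β).differentiableOn, ?_, ?_⟩, fun z _ => hslice z, ?_⟩
  · -- the shell
    refine le_trans ?_ le_self_add
    rw [graphVol]
    have hfac : ((1 + 1).factorial : ℝ≥0∞) = 2 := by norm_num [Nat.factorial]
    rw [hfac]
    refine mul_le_mul_right ?_ 2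
    simp only [hdens]
    exact shell_bound M α β r hr0 hr1 hβ0 hβc hαr hβ4 _ (shell_two r)
  · intro z _
    refine le_trans ?_ le_add_self
    refine le_trans ?_ (hslice z)
    rw [graphVol, graphVol]
    refine mul_le_mul_right (lintegral_mono_set ?_) _
    exact fun w hw => hw.1
  · -- the lower bound
    rw [graphVol, polydisc_two]
    have hfac : ((1 + 1).factorial : ℝ≥0∞) = 2 := by norm_num [Nat.factorial]
    rw [hfac]
    simp only [hdens]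
    have h2 := lower_bound M α β hα1 hβ2
    have h3 : A < 2 * ENNReal.ofReal (3 * Real.pi ^ 2 / 16 * (M + 1)) := by
      have h4 : A = ENNReal.ofReal A.toReal := (ENNReal.ofReal_toReal hA).symm
      have h5 : (2 : ℝ≥0∞) = ENNReal.ofReal 2 := by simp
      rw [h4, h5, ← ENNReal.ofReal_mul (by norm_num)]
      rw [ENNReal.ofReal_lt_ofReal_iff (by positivity)]
      have h6 : (9 : ℝ) < Real.pi ^ 2 := by nlinarith [Real.pi_gt_three]
      have h7 : (0 : ℝ) < M + 1 := by positivity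
      nlinarith
    exact h3.trans_le (mul_le_mul_right h2 2)

end Pool.Agent.Results.MP_4af734_an.GraphVolume
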